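import Pool.Agent.Mg.Fc0911c.G159ae3

open Pool.Agent.MP_c0911c_al

universe u

/-- A finite commutative ring (identity not assumed) is critical iff it is a local ring with
identity whose socle has as many elements as its residue field, or it is nilpotent and its
annihilator is a cyclic group of prime power order. -/
theorem Pool.Agent.Results.MP_c0911c_al.Critical.result
    (R : Type u) [NonUnitalCommRing R] [Finite R] :
    IsCritical R ↔
      (∃ (S : Type u) (_ : CommRing S) (_ : IsLocalRing S), Nonempty (R ≃+* S) ∧
        Nat.card (IsLocalRing.maximalIdeal S).annihilator =
          Nat.card (IsLocalRing.ResidueField S)) ∨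
      ((∃ n : ℕ, ∀ (a : R) (l : List R), l.length = n → l.foldl (· * ·) a = 0) ∧
        IsAddCyclic (annihilatorSubgroup R) ∧
        IsPrimePow (Nat.card (annihilatorSubgroup R))) :=
  isCritical_iff R
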