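import Pool.Agent.Mg.Fc0911ca.G4811ed

open Pool.Agent.MP_c0911c_al

universe u

/-- Finite commutative rings of order `p ^ N` in which every product of `q` nilpotent elements
vanishes, `q` the larger of `p` and the index of the nilradical: classification of those for
which some identity holds in all proper sections (quotients of subrings) but not in the ring. -/
theorem Pool.Agent.Results.MP_c0911c_al.SectionLarge.result
    (R : Type u) [NonUnitalCommRing R] [Finite R] (p N q : ℕ)
    (hp : p.Prime) (hcard : Nat.card R = p ^ N)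
    (hq : q = max p (Nat.card R / Nat.card {x : R // IsNilpotent (x : Unitization ℤ R)}))
    (hlarge : ∀ x : Fin q → R, (∀ i, IsNilpotent (x i : Unitization ℤ R)) →
      ∏ i, (x i : Unitization ℤ R) = 0) :
    IsSectionCritical R ↔
      (∃ (S : Type u) (_ : CommRing S) (_ : IsLocalRing S) (m : Ideal S), Nonempty (R ≃+* S) ∧
        m = IsLocalRing.maximalIdeal S ∧
        Nat.card m.annihilator = Nat.card (IsLocalRing.ResidueField S) ∧
        (m = Ideal.span {(p : S)} ∨
          ∃ (e : ℕ) (t : Fin (e + 1) → S), m = Ideal.span ({(p : S)} ∪ Set.range t) ∧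
            ∃ (a i : ℕ) (L : Multiset ℕ) (Q I : Ideal S),
              Q = Ideal.span {(p : S) ^ a} * (L.map fun j => powIdeal m (p ^ j)).prod ∧
              I = powIdeal m (p ^ i) ∧
              Q * I ^ (e * (p - 1) + 1) ≠ ⊥ ∧
              Q * I ^ (e * (p - 1)) * devIdeal m p (p ^ i) = ⊥ ∧
              ∀ l, l + p = e * (p - 1) + 1 → Q * I ^ l * powIdeal m (p ^ (i + 1)) = ⊥)) ∨
      ((∀ x : R, IsNilpotent (x : Unitization ℤ R)) ∧
        IsAddCyclic (annihilatorSubgroup R) ∧
        IsPrimePow (Nat.card (annihilatorSubgroup R)) ∧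
        ∃ x : R, NonUnitalSubring.closure {x} = ⊤) :=
  isSectionCritical_large R p N q hp hcard hq hlarge
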