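import Pool.Agent.Mg.Fc0911ca.G45100b

open Pool.Agent.MP_c0911c_al

universe u

/-- A finite commutative ring generated by `teich R` and `r` further elements lies outside the
variety of its proper sections iff it is subdirectly irreducible (shapes below) and some integer
polynomial in `r` variables vanishes at all non-generating `r`-tuples of nilpotent elements but
not at all `r`-tuples of nilpotent elements. -/
theorem Pool.Agent.Results.MP_c0911c_al.SectionPoly.result
    (R : Type u) [NonUnitalCommRing R] [Finite R] (r : ℕ)
    (hr : ∃ t : Fin r → R, NonUnitalSubring.closure (teich R ∪ Set.range t) = ⊤) :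
    IsSectionCritical R ↔
      ((∃ (S : Type u) (_ : CommRing S) (_ : IsLocalRing S), Nonempty (R ≃+* S) ∧
        Nat.card (IsLocalRing.maximalIdeal S).annihilator =
          Nat.card (IsLocalRing.ResidueField S)) ∨
      ((∃ n : ℕ, ∀ (a : R) (l : List R), l.length = n → l.foldl (· * ·) a = 0) ∧
        IsAddCyclic (annihilatorSubgroup R) ∧
        IsPrimePow (Nat.card (annihilatorSubgroup R)))) ∧
      ∃ P : MvPolynomial (Fin r) ℤ,
        (∀ y : Fin r → R, (∀ i, IsNilpotent (y i : Unitization ℤ R)) →
          NonUnitalSubring.closure (teich R ∪ Set.range y) ≠ ⊤ →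
          MvPolynomial.eval₂ (Int.castRingHom (Unitization ℤ R))
            (fun i => (y i : Unitization ℤ R)) P = 0) ∧
        ∃ y : Fin r → R, (∀ i, IsNilpotent (y i : Unitization ℤ R)) ∧
          MvPolynomial.eval₂ (Int.castRingHom (Unitization ℤ R))
            (fun i => (y i : Unitization ℤ R)) P ≠ 0 :=
  (isSectionCritical_poly R r hr).trans (and_congr_left' (isCritical_iff R))
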