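import Pool.Agent.Mg.Fc0911ca.Gb9cfcc

open Pool.Agent.MP_c0911c_al

universe u

/-- A finite commutative ring that needs exactly `r` generators besides the elements of `teich R`
lies outside the variety of its proper sections iff it is subdirectly irreducible (shapes below)
and lies outside the variety of the subrings generated by `teich R` and fewer than `r` elements. -/
theorem Pool.Agent.Results.MP_c0911c_al.SectionRank.result
    (R : Type u) [NonUnitalCommRing R] [Finite R] (r : ℕ)
    (hr : IsLeast {n : ℕ | ∃ Y : Finset R, Y.card = n ∧
      NonUnitalSubring.closure (teich R ∪ Y) = ⊤} r) :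
    IsSectionCritical R ↔
      ((∃ (S : Type u) (_ : CommRing S) (_ : IsLocalRing S), Nonempty (R ≃+* S) ∧
        Nat.card (IsLocalRing.maximalIdeal S).annihilator =
          Nat.card (IsLocalRing.ResidueField S)) ∨
      ((∃ n : ℕ, ∀ (a : R) (l : List R), l.length = n → l.foldl (· * ·) a = 0) ∧
        IsAddCyclic (annihilatorSubgroup R) ∧
        IsPrimePow (Nat.card (annihilatorSubgroup R)))) ∧
      ∃ s t : RingTerm, (∀ X : Finset R, X.card < r →
        SatisfiesIdentity (NonUnitalSubring.closure (teich R ∪ X)) s t) ∧
        ¬ SatisfiesIdentity R s t :=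
  isSectionCritical_rank R r hr
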